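import Pool.Agent.H698.UD.Dec
import Pool.Graph.R_seed8.H525R4.Mono.Disjoint

set_option autoImplicit false

/-! # k-SetDisjointness with partial knowledge about the family (helper660) -/

open scoped Classical
open Finset

namespace Pool.Agent.H660.UK

open Pool.Agent.H698.HF
open Pool.Agent.H698.UD
open Pool.Agent.H525R4.Mono (DisjDS DisjSolves Meet disj_lower)
open Flat (unknown known)

/-- A data structure with `s` cells for `k`-SetDisjointness on families of `m` subsets of a universe
with `n` elements, which computes with partial knowledge about the family (`P (i, e) = some true`: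
`e` is known to be in the set `i`, `some false`: known not to be there, `none`: unknown). The
contents of the cells are elements of the ordered set `D` of states of knowledge, and respect the
order: more knowledge about the family gives more knowledge in the cells. If `M` are the contents of
the cells then the query `v`, which names `k` sets, reads the cells `reads v M` (adaptively) and says
that these sets have a common element iff `accept v M`, a condition which depends only on the
contents of the cells read and is not lost when the contents become larger. -/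
structure KDisj (D : Type) [PartialOrder D] (k m n s : ℕ) where
  /-- the contents of the cells -/
  cell : Fin s → Know (Fin m × Fin n) → D
  cell_mono : ∀ c P P', Le P P' → cell c P ≤ cell c P'
  /-- the cells read -/
  reads : (Fin k → Fin m) → (Fin s → D) → Finset (Fin s)
  /-- the answer is: there is a common element -/
  accept : (Fin k → Fin m) → (Fin s → D) → Prop
  accept_mono : ∀ v M M', M ≤ M' → accept v M → accept v M'
  accept_reads : ∀ v M M', (∀ c ∈ reads v M, M' c = M c) → (accept v M' ↔ accept v M)

/-- the bits of a family -/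
def bits {m n : ℕ} (F : Fin m → Finset (Fin n)) (x : Fin m × Fin n) : Prop := x.2 ∈ F x.1

section

variable {D : Type} [PartialOrder D] {k m n s : ℕ}

/-- the contents of the cells -/
def KDisj.mem (S : KDisj D k m n s) (P : Know (Fin m × Fin n)) : Fin s → D := fun c => S.cell c P

/-- the answer to the query `v` is: there is a common element -/
def KDisj.out (S : KDisj D k m n s) (P : Know (Fin m × Fin n)) (v : Fin k → Fin m) : Prop :=
  S.accept v (S.mem P)

/-- the number of cells read for the query `v` -/
def KDisj.cost (S : KDisj D k m n s) (P : Know (Fin m × Fin n)) (v : Fin k → Fin m) : ℕ :=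
  (S.reads v (S.mem P)).card

/-- The random structure `S` (it is `S ϖ` with probability `p ϖ`) solves `k`-SetDisjointness with
unknown inputs, with advantage `δ` and query time `t`: for every family and every query of `k`
different sets, if there is a common element then the answer says so with probability at least
`1 / 2 + δ` as soon as the elements of the sets are known (for all other elements of the universe it
may be unknown whether they belong to the sets); if there is none then the answer does not say so
with probability at least `1 / 2 + δ` if everything is known, and at most `t` cells are read on the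
average if only the elements of the sets are known. -/
def KSolves {Ω : Type} [Fintype Ω] (p : Ω → ℝ) (S : Ω → KDisj D k m n s) (δ t : ℝ) : Prop :=
  (∀ ϖ, 0 ≤ p ϖ) ∧ ∑ ϖ, p ϖ = 1 ∧
  ∀ (F : Fin m → Finset (Fin n)) (v : Fin k → Fin m), Function.Injective v →
    (Meet F v → 1 / 2 + δ ≤ ∑ ϖ ∈ univ.filter (fun ϖ => (S ϖ).out (truths (bits F)) v), p ϖ) ∧
    (¬ Meet F v → 1 / 2 + δ ≤ ∑ ϖ ∈ univ.filter (fun ϖ => ¬ (S ϖ).out (full (bits F)) v), p ϖ) ∧
    (¬ Meet F v → ∑ ϖ, p ϖ * ((S ϖ).cost (truths (bits F)) v : ℝ) ≤ t)

theorem KDisj.mem_mono (S : KDisj D k m n s) {P P' : Know (Fin m × Fin n)} (h : Le P P') :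
    S.mem P ≤ S.mem P' := fun c => S.cell_mono c _ _ h

theorem KDisj.exists_real (hD : TreeLike D) (S : KDisj D k m n s) :
    ∃ S' : DisjDS k m n s, ∀ (F : Fin m → Finset (Fin n)) (v : Fin k → Fin m),
      (S'.out F v ↔ S.out (truths (bits F)) v) ∧ S'.cost F v = S.cost (truths (bits F)) v := by
  let top : Fin s → D := S.mem (truths fun _ : Fin m × Fin n => True)
  choose f hf using fun c : Fin s => hD (top c)
  have htr : ∀ b : Fin m × Fin n → Prop, Le (truths b) (truths fun _ => True) :=
    fun b => truths_le_truths fun _ _ => trivial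
  have hle : ∀ (b : Fin m × Fin n → Prop) (c : Fin s), S.mem (truths b) c ≤ top c :=
    fun b c => S.mem_mono (htr b) c
  have hF : ∀ {F F' : Fin m → Finset (Fin n)}, F ≤ F' →
      Le (truths (bits F)) (truths (bits F')) := by
    intro F F' h
    exact truths_le_truths fun x hx => h x.1 hx
  let S' : DisjDS k m n s :=
    { cell := fun c F => f c (S.cell c (truths (bits F)))
      cell_mono := fun c F F' h =>
        (hf c _ (hle _ c) _ (hle _ c)).1 (S.cell_mono c _ _ (hF h))
      reads := fun v M => Rd top f (S.reads v) M
      accept := fun v M => Acc top f (S.accept v) M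
      accept_mono := fun v M M' h ha => acc_mono h ha
      accept_reads := fun v M M' h =>
        acc_reads hf (S.accept_mono v) (reads := S.reads v)
          (fun N N1 hN => S.accept_reads v N N1 hN) h }
  have hmem : ∀ (F : Fin m → Finset (Fin n)) (c : Fin s),
      S'.mem F c = f c (S.mem (truths (bits F)) c) := fun F c => rfl
  refine ⟨S', fun F v => ⟨?_, ?_⟩⟩
  · exact acc_iff hf (S.accept_mono v) (hle (bits F))
      (R := S.reads v (S.mem (truths (bits F)))) (fun M1 h1 => S.accept_reads v _ M1 h1)
      (fun c _ => hmem F c)
  · show (Rd top f (S.reads v) (S'.mem F)).card = _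
    rw [rd_eq hf (S.reads v) (hle (bits F)) (hmem F)]
    rfl

theorem KSolves.real (hD : TreeLike D) {Ω : Type} [Fintype Ω] {p : Ω → ℝ}
    {S : Ω → KDisj D k m n s} {δ t : ℝ} (hS : KSolves p S δ t) :
    ∃ S' : Ω → DisjDS k m n s, DisjSolves p S' δ t := by
  obtain ⟨hp, hp1, h⟩ := hS
  choose S' hS' using fun ϖ => (S ϖ).exists_real hD
  refine ⟨S', hp, hp1, fun F v hv => ?_⟩
  obtain ⟨h1, h2, h3⟩ := h F v hv
  constructor
  · by_cases hm : Meet F v
    · refine (h1 hm).trans (sum_le_sum_of_subset_of_nonneg ?_ fun ϖ _ _ => hp ϖ)
      intro ϖ hϖ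
      simp only [mem_filter] at hϖ ⊢
      exact ⟨hϖ.1, ⟨fun _ => hm, fun _ => (hS' ϖ F v).1.2 hϖ.2⟩⟩
    · refine (h2 hm).trans (sum_le_sum_of_subset_of_nonneg ?_ fun ϖ _ _ => hp ϖ)
      intro ϖ hϖ
      simp only [mem_filter] at hϖ ⊢
      refine ⟨hϖ.1, ⟨fun ho => ?_, fun hh => absurd hh hm⟩⟩
      exact absurd ((S ϖ).accept_mono v _ _ ((S ϖ).mem_mono (truths_le_full _))
        ((hS' ϖ F v).1.1 ho)) hϖ.2
  · intro hm
    refine le_trans (le_of_eq ?_) (h3 hm)
    refine sum_congr rfl fun ϖ _ => ?_
    rw [(hS' ϖ F v).2]

/-- the lower bound -/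
theorem lowerK {k N : ℕ} (hk : 2 ≤ k) (hkN : k ≤ N) {δ t : ℝ} (hδ : 0 < δ) (hδ2 : δ ≤ 1 / 2)
    (ht : 1 ≤ t) :
    ∃ m n : ℕ, m * n ≤ N ∧ ∀ (D : Type) [PartialOrder D], TreeLike D → ∀ (s : ℕ) (Ω : Type)
      [Fintype Ω] (p : Ω → ℝ) (S : Ω → KDisj D k m n s), KSolves p S δ t →
        δ * (δ * N / (20 * k ^ 3 * t * Real.logb 2 (N / δ))) ^ k ≤ s := by
  obtain ⟨m, n, h1, h2⟩ := disj_lower hk hkN hδ hδ2 ht
  refine ⟨m, n, h1, fun D _ hD s Ω _ p S hS => ?_⟩
  obtain ⟨S', hS'⟩ := hS.real hD
  exact h2 s Ω p S' hS'

end

/-! ### The table -/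

section

variable {k m n : ℕ}

/-- what is known about the question whether the sets of the query have a common element -/
noncomputable def tab (v : Fin k → Fin m) (P : Know (Fin m × Fin n)) : Flat Bool :=
  if ∃ e, ∀ a, P (v a, e) = some true then known true
  else if ∀ e, ∃ a, P (v a, e) = some false then known false else unknown

theorem tab_true (v : Fin k → Fin m) (P : Know (Fin m × Fin n)) :
    tab v P = known true ↔ ∃ e, ∀ a, P (v a, e) = some true := by
  unfold tab
  split_ifs with h1 h2 <;> simp [h1]

theorem tab_false (v : Fin k → Fin m) (P : Know (Fin m × Fin n)) :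
    tab v P = known false ↔ ∀ e, ∃ a, P (v a, e) = some false := by
  unfold tab
  split_ifs with h1 h2
  · simp only [Flat.known.injEq, Bool.true_eq_false, false_iff, not_forall, not_exists]
    obtain ⟨e, he⟩ := h1
    exact ⟨e, fun a => by rw [he a]; simp⟩
  · simp [h2]
  · simp [h2]

theorem tab_mono (v : Fin k → Fin m) (P P' : Know (Fin m × Fin n)) (h : Le P P') :
    tab v P ≤ tab v P' := by
  have hs : ∀ x b, P x = some b → P' x = some b := by
    intro x b hx
    rcases h x with h1 | h1
    · rw [hx] at h1; exact absurd h1 (by simp)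
    · rw [← h1, hx]
  rcases hv : tab v P with _ | (_ | _)
  · exact Or.inl rfl
  · right
    rw [tab_false] at hv
    symm
    rw [tab_false]
    intro e
    obtain ⟨a, ha⟩ := hv e
    exact ⟨a, hs _ _ ha⟩
  · right
    rw [tab_true] at hv
    symm
    rw [tab_true]
    obtain ⟨e, he⟩ := hv
    exact ⟨e, fun a => hs _ _ (he a)⟩

/-- the numbers of the queries -/
noncomputable def num (k m : ℕ) : (Fin k → Fin m) ≃ Fin (m ^ k) :=
  (Fintype.equivFin (Fin k → Fin m)).trans (finCongr (by simp))

/-- the table -/
noncomputable def table (k m n : ℕ) : KDisj (Flat Bool) k m n (m ^ k) where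
  cell := fun c P => tab ((num k m).symm c) P
  cell_mono := fun c P P' h => tab_mono _ P P' h
  reads := fun v _ => {num k m v}
  accept := fun v M => M (num k m v) = known true
  accept_mono := by
    intro v M M' h ha
    have h1 := h (num k m v)
    rw [ha, Flat.le_iff] at h1
    rcases h1 with h1 | h1
    · exact absurd h1 (by simp)
    · exact h1.symm
  accept_reads := by
    intro v M M' h
    rw [h _ (mem_singleton_self _)]

theorem table_cell (v : Fin k → Fin m) (P : Know (Fin m × Fin n)) :
    (table k m n).cell (num k m v) P = tab v P := by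
  show tab ((num k m).symm (num k m v)) P = _
  rw [Equiv.symm_apply_apply]

theorem le_full_iff {P : Know (Fin m × Fin n)} {F : Fin m → Finset (Fin n)} :
    Le P (full (bits F)) ↔ ∀ i e b, P (i, e) = some b → (e ∈ F i ↔ b = true) := by
  constructor
  · intro h i e b hb
    rcases h (i, e) with h1 | h1
    · rw [hb] at h1; exact absurd h1 (by simp)
    · rw [hb] at h1
      unfold full bits at h1
      have h2 := Option.some.inj h1
      rw [h2]
      simp
  · intro h x
    rcases hx : P x with _ | b
    · exact Or.inl rfl
    · right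
      unfold full bits
      have := h x.1 x.2 b hx
      rcases b with _ | _
      · simp only [Bool.false_eq_true, iff_false] at this
        simp [this]
      · simp only [iff_true] at this
        simp [this]

theorem table_sem (v : Fin k → Fin m) (P : Know (Fin m × Fin n)) :
    (tab v P = known true ↔ ∀ F : Fin m → Finset (Fin n), Le P (full (bits F)) → Meet F v) ∧
    (tab v P = known false ↔
      ∀ F : Fin m → Finset (Fin n), Le P (full (bits F)) → ¬ Meet F v) := by
  constructor
  · rw [tab_true]
    constructor
    · rintro ⟨e, he⟩ F hF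
      exact ⟨e, fun a => (le_full_iff.1 hF _ _ _ (he a)).2 rfl⟩
    · intro h
      obtain ⟨e, he⟩ := h (fun i => univ.filter fun e => P (i, e) = some true)
        (le_full_iff.2 fun i e b hb => by rw [mem_filter, hb]; simp)
      exact ⟨e, fun a => (mem_filter.1 (he a)).2⟩
  · rw [tab_false]
    constructor
    · rintro h F hF ⟨e, he⟩
      obtain ⟨a, ha⟩ := h e
      exact absurd ((le_full_iff.1 hF _ _ _ ha).1 (he a)) (by simp)
    · intro h e
      by_contra hcon
      push Not at hcon
      refine h (fun i => univ.filter fun e => P (i, e) ≠ some false)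
        (le_full_iff.2 fun i e b hb => by
          rw [mem_filter, hb]
          rcases b with _ | _ <;> simp) ⟨e, fun a => mem_filter.2 ⟨mem_univ _, hcon a⟩⟩

theorem out_table (v : Fin k → Fin m) (P : Know (Fin m × Fin n)) :
    (table k m n).out P v ↔ tab v P = known true := by
  show (table k m n).cell (num k m v) P = known true ↔ _
  rw [table_cell]

theorem table_solves (k m n : ℕ) :
    KSolves (fun _ : Unit => 1) (fun _ => table k m n) (1 / 2) 1 := by
  refine ⟨fun _ => zero_le_one, by simp, fun F v _ => ⟨fun h => ?_, fun h => ?_, fun _ => ?_⟩⟩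
  · have h1 : (table k m n).out (truths (bits F)) v := by
      rw [out_table, tab_true]
      obtain ⟨e, he⟩ := h
      exact ⟨e, fun a => by unfold truths bits; simp [he a]⟩
    rw [filter_true_of_mem (fun _ _ => h1)]
    norm_num
  · have h1 : ¬ (table k m n).out (full (bits F)) v := by
      rw [out_table]
      intro hcon
      exact h ((table_sem v _).1.1 hcon F (fun e => Or.inr rfl))
    rw [filter_true_of_mem (fun _ _ => h1)]
    norm_num
  · show ∑ ϖ : Unit, (1 : ℝ) * ((({num k m v} : Finset (Fin (m ^ k))).card : ℕ) : ℝ) ≤ 1
    simp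

end

end Pool.Agent.H660.UK
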