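import Pool.Agent.H698.UD.Dec

set_option autoImplicit false

/-! # Data structures with unknown inputs, in general (helper660) -/

open scoped Classical
open Finset

namespace Pool.Agent.H660.UK

open Pool.Agent.H698.HF
open Pool.Agent.H698.UD
open Flat (unknown known)

/-- A data structure with the places `Pl` and the queries `Qu` for inputs given by the bits `E`,
which computes with partial knowledge about the bits (`P e = some b`: the bit `e` is known to be `b`,
`P e = none`: unknown). The contents of the places are elements of the ordered set `D` of states of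
knowledge, and respect the order: more knowledge about the input gives more knowledge in the places.
The contents of the place `c` do not depend on the bits in `ign c`. If `M` are the contents of the
places then the query `q` reads the places `reads q M` (adaptively) and says yes iff `accept q M`, a
condition which depends only on the contents of the places read and is not lost when the contents
become larger. -/
structure UDS (D : Type) [PartialOrder D] (Pl Qu E : Type) (ign : Pl → Set E) where
  /-- the contents of the places -/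
  cont : Pl → Know E → D
  cont_mono : ∀ c P P', Le P P' → cont c P ≤ cont c P'
  cont_ign : ∀ c P P', (∀ e, e ∉ ign c → P e = P' e) → cont c P = cont c P'
  /-- the places read -/
  reads : Qu → (Pl → D) → Finset Pl
  /-- the answer is yes -/
  accept : Qu → (Pl → D) → Prop
  accept_mono : ∀ q M M', M ≤ M' → accept q M → accept q M'
  accept_reads : ∀ q M M', (∀ c ∈ reads q M, M' c = M c) → (accept q M' ↔ accept q M)

section

variable {D : Type} [PartialOrder D] {Pl Qu E : Type} {ign : Pl → Set E}

/-- the contents of all places -/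
def UDS.mem (S : UDS D Pl Qu E ign) (P : Know E) : Pl → D := fun c => S.cont c P

/-- the answer to the query `q` is yes -/
def UDS.out (S : UDS D Pl Qu E ign) (P : Know E) (q : Qu) : Prop := S.accept q (S.mem P)

/-- the number of places read for the query `q` -/
def UDS.cost (S : UDS D Pl Qu E ign) (P : Know E) (q : Qu) : ℕ := (S.reads q (S.mem P)).card

/-- The random structure `S` (it is `S ϖ` with probability `p ϖ`) finds out whether `A x q` holds,
for the inputs `x ∈ X` and the queries `q`, with unknown inputs, with advantage `δ` and query time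
`t`: if `A x q` holds then the answer is yes with probability at least `1 / 2 + δ` as soon as the
true bits of `x` are known (all other bits may be unknown); if `A x q` does not hold then the answer
is not yes with probability at least `1 / 2 + δ` if everything is known, and at most `t` places are
read on the average if only the true bits are known. -/
def USolves {Ω : Type} [Fintype Ω] (X : Set (E → Prop)) (A : (E → Prop) → Qu → Prop) (p : Ω → ℝ)
    (S : Ω → UDS D Pl Qu E ign) (δ t : ℝ) : Prop :=
  (∀ ϖ, 0 ≤ p ϖ) ∧ ∑ ϖ, p ϖ = 1 ∧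
  ∀ x ∈ X, ∀ q,
    (A x q → 1 / 2 + δ ≤ ∑ ϖ ∈ univ.filter (fun ϖ => (S ϖ).out (truths x) q), p ϖ) ∧
    (¬ A x q → 1 / 2 + δ ≤ ∑ ϖ ∈ univ.filter (fun ϖ => ¬ (S ϖ).out (full x) q), p ϖ) ∧
    (¬ A x q → ∑ ϖ, p ϖ * ((S ϖ).cost (truths x) q : ℝ) ≤ t)

theorem UDS.mem_mono (S : UDS D Pl Qu E ign) {P P' : Know E} (h : Le P P') :
    S.mem P ≤ S.mem P' := fun c => S.cont_mono c _ _ h

/-- the memory becomes a monotone memory of real numbers -/
theorem UDS.exists_real [Fintype Pl] (hD : TreeLike D) (S : UDS D Pl Qu E ign) :
    ∃ (cont : Pl → (E → Prop) → ℝ) (reads : Qu → (Pl → ℝ) → Finset Pl)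
      (accept : Qu → (Pl → ℝ) → Prop),
      (∀ c x y, (∀ e, x e → y e) → cont c x ≤ cont c y) ∧
      (∀ c x y, (∀ e, e ∉ ign c → (x e ↔ y e)) → cont c x = cont c y) ∧
      (∀ q M M', M ≤ M' → accept q M → accept q M') ∧
      (∀ q M M', (∀ c ∈ reads q M, M' c = M c) → (accept q M' ↔ accept q M)) ∧
      (∀ x q, accept q (fun c => cont c x) ↔ S.out (truths x) q) ∧
      ∀ x q, (reads q fun c => cont c x).card = S.cost (truths x) q := by
  let top : Pl → D := S.mem (truths fun _ : E => True)
  choose f hf using fun c : Pl => hD (top c)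
  have htr : ∀ b : E → Prop, Le (truths b) (truths fun _ => True) :=
    fun b => truths_le_truths fun _ _ => trivial
  have hle : ∀ (b : E → Prop) (c : Pl), S.mem (truths b) c ≤ top c :=
    fun b c => S.mem_mono (htr b) c
  refine ⟨fun c x => f c (S.cont c (truths x)), fun q M => Rd top f (S.reads q) M,
    fun q M => Acc top f (S.accept q) M, fun c x y h =>
      (hf c _ (hle _ c) _ (hle _ c)).1 (S.cont_mono c _ _ (truths_le_truths h)), fun c x y h => ?_,
    fun q M M' h ha => acc_mono h ha, fun q M M' h =>
        acc_reads hf (S.accept_mono q) (reads := S.reads q)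
          (fun N N1 hN => S.accept_reads q N N1 hN) h, fun x q => ?_, fun x q => ?_⟩
  · have : S.cont c (truths x) = S.cont c (truths y) := by
      refine S.cont_ign c _ _ fun e he => ?_
      unfold truths
      by_cases h2 : x e
      · rw [if_pos h2, if_pos ((h e he).1 h2)]
      · rw [if_neg h2, if_neg (fun h3 => h2 ((h e he).2 h3))]
    dsimp only
    rw [this]
  · exact acc_iff hf (S.accept_mono q) (hle x)
      (R := S.reads q (S.mem (truths x))) (fun M1 h1 => S.accept_reads q _ M1 h1)
      (fun c _ => rfl)
  · have e1 : Rd top f (S.reads q) (fun c => f c (S.cont c (truths x))) =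
        S.reads q (S.mem (truths x)) := rd_eq hf (S.reads q) (hle x) (fun c => rfl)
    show (Rd top f (S.reads q) (fun c => f c (S.cont c (truths x)))).card = _
    rw [e1]
    rfl

/-- the probabilities for the real structures -/
theorem USolves.real [Fintype Pl] {Ω : Type} [Fintype Ω] {X : Set (E → Prop)}
    {A : (E → Prop) → Qu → Prop} {p : Ω → ℝ} {S : Ω → UDS D Pl Qu E ign} {δ t : ℝ}
    (hS : USolves X A p S δ t) {x : E → Prop} (hx : x ∈ X) (q : Qu) {B : Prop} (hB : B ↔ A x q)
    {o : Ω → Prop} {c : Ω → ℕ} (ho : ∀ ϖ, o ϖ ↔ (S ϖ).out (truths x) q)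
    (hc : ∀ ϖ, c ϖ = (S ϖ).cost (truths x) q) :
    1 / 2 + δ ≤ ∑ ϖ ∈ univ.filter (fun ϖ => (o ϖ ↔ B)), p ϖ ∧
      (¬ B → ∑ ϖ, p ϖ * (c ϖ : ℝ) ≤ t) := by
  obtain ⟨hp, hp1, h⟩ := hS
  obtain ⟨h1, h2, h3⟩ := h x hx q
  constructor
  · by_cases hm : A x q
    · refine (h1 hm).trans (sum_le_sum_of_subset_of_nonneg ?_ fun ϖ _ _ => hp ϖ)
      intro ϖ hϖ
      simp only [mem_filter] at hϖ ⊢
      exact ⟨hϖ.1, ⟨fun _ => hB.2 hm, fun _ => (ho ϖ).2 hϖ.2⟩⟩
    · refine (h2 hm).trans (sum_le_sum_of_subset_of_nonneg ?_ fun ϖ _ _ => hp ϖ)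
      intro ϖ hϖ
      simp only [mem_filter] at hϖ ⊢
      refine ⟨hϖ.1, ⟨fun ho' => ?_, fun hh => absurd (hB.1 hh) hm⟩⟩
      exact absurd ((S ϖ).accept_mono q _ _ ((S ϖ).mem_mono (truths_le_full _))
        ((ho ϖ).1 ho')) hϖ.2
  · intro hm
    refine le_trans (le_of_eq ?_) (h3 fun h => hm (hB.2 h))
    exact sum_congr rfl fun ϖ _ => by rw [hc ϖ]

end

/-! ### Tables -/

section

variable {Qu E : Type}

/-- what is known about the answer to the query -/
noncomputable def tabl (A : (E → Prop) → Qu → Prop) (q : Qu) (P : Know E) : Flat Bool :=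
  if ∀ x, Le P (full x) → A x q then known true
  else if ∀ x, Le P (full x) → ¬ A x q then known false else unknown

theorem ex_full (P : Know E) : Le P (full fun e => P e = some true) := by
  intro e
  unfold full
  rcases hP : P e with _ | b
  · left; rfl
  · right
    cases b <;> simp [hP]

theorem le_trans' {P Q R : Know E} (h : Le P Q) (h' : Le Q R) : Le P R := by
  intro e
  rcases h e with h1 | h1
  · exact Or.inl h1
  · rcases h' e with h2 | h2
    · left; rw [h1, h2]
    · right; rw [h1, h2]

theorem tabl_true (A : (E → Prop) → Qu → Prop) (q : Qu) (P : Know E) :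
    tabl A q P = known true ↔ ∀ x, Le P (full x) → A x q := by
  unfold tabl
  split_ifs with h1 h2
  · exact ⟨fun _ => h1, fun _ => rfl⟩
  · exact ⟨fun h => absurd h (by simp), fun h => absurd h h1⟩
  · exact ⟨fun h => absurd h (by simp), fun h => absurd h h1⟩

theorem tabl_false (A : (E → Prop) → Qu → Prop) (q : Qu) (P : Know E) :
    tabl A q P = known false ↔ ∀ x, Le P (full x) → ¬ A x q := by
  unfold tabl
  split_ifs with h1 h2
  · simp only [Flat.known.injEq, Bool.true_eq_false, false_iff]
    exact fun h => h _ (ex_full P) (h1 _ (ex_full P))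
  · exact ⟨fun _ => h2, fun _ => rfl⟩
  · exact ⟨fun h => absurd h (by simp), fun h => absurd h h2⟩

theorem tabl_mono (A : (E → Prop) → Qu → Prop) (q : Qu) (P P' : Know E) (h : Le P P') :
    tabl A q P ≤ tabl A q P' := by
  rcases hv : tabl A q P with _ | (_ | _)
  · exact Or.inl rfl
  · right
    rw [tabl_false] at hv
    symm
    rw [tabl_false]
    exact fun x hx => hv x (le_trans' h hx)
  · right
    rw [tabl_true] at hv
    symm
    rw [tabl_true]
    exact fun x hx => hv x (le_trans' h hx)

theorem truths_imp {x y : E → Prop} (h : Le (truths x) (full y)) : ∀ e, x e → y e := by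
  intro e he
  rcases h e with h1 | h1
  · unfold truths at h1
    rw [if_pos he] at h1
    exact absurd h1 (by simp)
  · unfold truths full at h1
    rw [if_pos he] at h1
    simpa using h1

/-- the table with the place `num q` for each query `q` which may have the answer yes -/
noncomputable def tableU {Pl : Type} {ign : Pl → Set E} (A : (E → Prop) → Qu → Prop)
    (num : Qu → Option Pl) (qu : Pl → Qu) (hign : ∀ c, ign c = ∅) :
    UDS (Flat Bool) Pl Qu E ign where
  cont := fun c P => tabl A (qu c) P
  cont_mono := fun c P P' h => tabl_mono A _ P P' h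
  cont_ign := by
    intro c P P' h
    have : P = P' := by
      funext e
      exact h e (by rw [hign]; simp)
    rw [this]
  reads := fun q _ => (num q).elim ∅ fun c => {c}
  accept := fun q M => ∃ c, num q = some c ∧ M c = known true
  accept_mono := by
    rintro q M M' h ⟨c, h1, h2⟩
    refine ⟨c, h1, ?_⟩
    have h3 := h c
    rw [h2, Flat.le_iff] at h3
    rcases h3 with h3 | h3
    · exact absurd h3 (by simp)
    · exact h3.symm
  accept_reads := by
    intro q M M' h
    rcases hq : num q with _ | c
    · simp
    · have h1 := h c (by rw [hq]; simp)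
      simp [h1]

theorem exists_table {Pl : Type} {ign : Pl → Set E} {A : (E → Prop) → Qu → Prop}
    (hign : ∀ c, ign c = ∅) {X : Set (E → Prop)}
    (hA : ∀ x y q, (∀ e, x e → y e) → A x q → A y q) (num : Qu → Option Pl) (qu : Pl → Qu)
    (hnum : ∀ q c, num q = some c → qu c = q) (hno : ∀ q, num q = none → ∀ x ∈ X, ¬ A x q) :
    ∃ T : UDS (Flat Bool) Pl Qu E ign,
      USolves X A (fun _ : Unit => 1) (fun _ => T) (1 / 2) 1 ∧
      ∀ q, (∃ x ∈ X, A x q) → ∃ c, ∀ P : Know E, T.reads q (T.mem P) = {c} ∧
        (T.cont c P = known true ↔ ∀ x, Le P (full x) → A x q) ∧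
        (T.cont c P = known false ↔ ∀ x, Le P (full x) → ¬ A x q) := by
  have hout : ∀ P q, (tableU A num qu hign).out P q ↔
      (∃ c, num q = some c) ∧ ∀ x, Le P (full x) → A x q := by
    intro P q
    show (∃ c, num q = some c ∧ tabl A (qu c) P = known true) ↔ _
    constructor
    · rintro ⟨c, h1, h2⟩
      rw [hnum q c h1, tabl_true] at h2
      exact ⟨⟨c, h1⟩, h2⟩
    · rintro ⟨⟨c, h1⟩, h2⟩
      exact ⟨c, h1, by rw [hnum q c h1, tabl_true]; exact h2⟩
  refine ⟨tableU A num qu hign, ⟨fun _ => zero_le_one, by simp, fun x hx q =>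
    ⟨fun h => ?_, fun h => ?_, fun _ => ?_⟩⟩, fun q hq => ?_⟩
  · have h1 : (tableU A num qu hign).out (truths x) q := by
      rw [hout]
      refine ⟨?_, fun y hy => hA x y q (truths_imp hy) h⟩
      rcases hq : num q with _ | c
      · exact absurd h (hno q hq x hx)
      · exact ⟨c, rfl⟩
    rw [filter_true_of_mem (fun _ _ => h1)]
    norm_num
  · have h1 : ¬ (tableU A num qu hign).out (full x) q := by
      rw [hout]
      exact fun hcon => h (hcon.2 x fun e => Or.inr rfl)
    rw [filter_true_of_mem (fun _ _ => h1)]
    norm_num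
  · have h1 : ((tableU A num qu hign).cost (truths x) q : ℝ) ≤ 1 := by
      show ((((num q).elim ∅ fun c => {c} : Finset Pl).card : ℕ) : ℝ) ≤ 1
      rcases num q with _ | c <;> simp
    simpa using h1
  · rcases hc : num q with _ | c
    · obtain ⟨x, hx, h⟩ := hq
      exact absurd h (hno q hc x hx)
    · refine ⟨c, fun P => ⟨?_, ?_, ?_⟩⟩
      · show ((num q).elim ∅ (fun c => {c}) : Finset Pl) = {c}
        rw [hc]
        rfl
      · show tabl A (qu c) P = _ ↔ _
        rw [hnum q c hc, tabl_true]
      · show tabl A (qu c) P = _ ↔ _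
        rw [hnum q c hc, tabl_false]

end

end Pool.Agent.H660.UK
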