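import Pool.Agent.H660.UK.Gen
import Pool.Graph.R_seed8.H525R4.Mono.HalfLower

set_option autoImplicit false

/-! # SetDisjointness between two halves with partial knowledge (helper660) -/

open scoped Classical
open Finset

namespace Pool.Agent.H660.UK

open Pool.Agent.H698.HF
open Pool.Agent.H525R4.Mono (HPlace HalfDS HalfSolves HMeet half_lower)
open Flat (unknown known)

/-- the two sets `q 0` of the first half and `q 1` of the second half of a family of sets, given by
its bits `x (j, i, e)` (does the element `e` belong to the set `i` of the half `j`?), have a common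
element -/
def Meets {h n : ℕ} (x : Fin 2 × Fin h × Fin n → Prop) (q : Fin 2 → Fin h) : Prop :=
  ∃ e, ∀ j, x (j, q j, e)

/-- the bits which are ignored: none for the `s` cells; the free place `(j, c)` depends on the half
`j` of the family only -/
def hign (h n s r : ℕ) : HPlace s r → Set (Fin 2 × Fin h × Fin n)
  | .inl _ => ∅
  | .inr c => {x | x.1 ≠ c.1}

/-- the bits of a family -/
def fam {h n : ℕ} (F : Fin 2 → Fin h → Finset (Fin n)) (x : Fin 2 × Fin h × Fin n) : Prop :=
  x.2.2 ∈ F x.1 x.2.1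

theorem half_unknown {N r : ℕ} {δ t : ℝ} (hδ : 0 < δ) (hδ2 : δ ≤ 1 / 2)
    (ht : 1 ≤ t) (hnt : 160 * t * Real.logb 2 ((N + r) / δ) ≤ δ * N) :
    ∃ h n : ℕ, 2 * h * n ≤ N ∧ ∀ (D : Type) [PartialOrder D], TreeLike D → ∀ (s : ℕ) (Ω : Type)
      [Fintype Ω] (p : Ω → ℝ)
      (S : Ω → UDS D (HPlace s r) (Fin 2 → Fin h) (Fin 2 × Fin h × Fin n) (hign h n s r)),
      USolves Set.univ Meets p S δ t →
        δ * (δ * N / (160 * t * Real.logb 2 ((N + r) / δ))) ^ 2 ≤ s := by
  obtain ⟨h, n, h1, h2⟩ := half_lower (r := r) hδ hδ2 ht hnt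
  refine ⟨h, n, h1, fun D _ hD s Ω _ p S hS => ?_⟩
  have hex := fun ϖ => (S ϖ).exists_real hD
  choose cont reads accept c1 c2 c3 c4 c5 c6 using hex
  let D' : Ω → HalfDS h n s r := fun ϖ =>
    { cell := fun c F => cont ϖ (Sum.inl c) (fam F)
      cell_mono := fun c F F' h => c1 ϖ _ _ _ fun e he => h e.1 e.2.1 he
      free := fun j c G => cont ϖ (Sum.inr (j, c)) (fam fun _ => G)
      free_mono := fun j c G G' h => c1 ϖ _ _ _ fun e he => h e.2.1 he
      reads := reads ϖ
      accept := accept ϖ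
      accept_mono := c3 ϖ
      accept_reads := c4 ϖ }
  have hmem : ∀ ϖ F, (D' ϖ).mem F = fun c => cont ϖ c (fam F) := by
    intro ϖ F
    funext c
    rcases c with c | c
    · rfl
    · show cont ϖ (Sum.inr (c.1, c.2)) (fam fun _ => F c.1) = _
      refine c2 ϖ _ _ _ fun e he => ?_
      have he' : e.1 = c.1 := not_not.1 he
      unfold fam
      rw [he']
  refine h2 s Ω p D' ⟨hS.1, hS.2.1, fun F q => ?_⟩
  refine hS.real (x := fam F) (Set.mem_univ _) q (B := HMeet F q) Iff.rfl
    (o := fun ϖ => (D' ϖ).out F q) (c := fun ϖ => (D' ϖ).cost F q) (fun ϖ => ?_) (fun ϖ => ?_)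
  · show accept ϖ q ((D' ϖ).mem F) ↔ _
    rw [hmem]
    exact c5 ϖ (fam F) q
  · show (reads ϖ q ((D' ϖ).mem F)).card = _
    rw [hmem]
    exact c6 ϖ (fam F) q

theorem half_table (h n : ℕ) :
    ∃ T : UDS (Flat Bool) (HPlace (h ^ 2) 0) (Fin 2 → Fin h) (Fin 2 × Fin h × Fin n)
        (hign h n (h ^ 2) 0),
      USolves Set.univ Meets (fun _ : Unit => 1) (fun _ => T) (1 / 2) 1 ∧
      ∀ q, (∃ x ∈ (Set.univ : Set (Fin 2 × Fin h × Fin n → Prop)), Meets x q) →
        ∃ c, ∀ P : Know (Fin 2 × Fin h × Fin n),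
        T.reads q (T.mem P) = {c} ∧
        (T.cont c P = known true ↔ ∀ x, Le P (full x) → Meets x q) ∧
        (T.cont c P = known false ↔ ∀ x, Le P (full x) → ¬ Meets x q) := by
  let ν : (Fin 2 → Fin h) ≃ Fin (h ^ 2) :=
    (Fintype.equivFin (Fin 2 → Fin h)).trans (finCongr (by simp))
  refine exists_table (ign := hign h n (h ^ 2) 0) (fun c => ?_) ?_
    (fun q => some (Sum.inl (ν q)))
    (fun c => Sum.elim (fun c => ν.symm c) (fun c => c.2.elim0) c) ?_ ?_
  · rcases c with c | c
    · rfl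
    · exact c.2.elim0
  · rintro x y q h ⟨e, he⟩
    exact ⟨e, fun j => h _ (he j)⟩
  · intro q c hc
    rw [← Option.some.inj hc]
    exact ν.symm_apply_apply q
  · intro q hq
    exact absurd hq (by simp)

end Pool.Agent.H660.UK
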