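import Pool.Agent.H660.UK.Gen
import Pool.Graph.R_seed8.H525R4.Mono.KSumLower

set_option autoImplicit false

/-! # (k+1)-SUM-Indexing with partial knowledge about the arrays (helper660) -/

open scoped Classical
open Finset

namespace Pool.Agent.H660.UK

open Pool.Agent.H698.HF
open Pool.Agent.H525R4.Mono (KPlace KSumDS KSumSolves IsKSum ksum_lower)
open Flat (unknown known)

/-- the bits of `k` arrays: does the integer `x.2` belong to the array `x.1`? -/
def arrs {k : ℕ} (A : Fin k → Finset ℤ) (x : Fin k × ℤ) : Prop := x.2 ∈ A x.1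

/-- the `k` arrays of at most `n` integers from `0, …, N`, given by their bits -/
def Arrays (k n N : ℕ) : Set (Fin k × ℤ → Prop) :=
  {x | ∃ A : Fin k → Finset ℤ, (∀ j, (A j).card ≤ n) ∧ (∀ j, ∀ z ∈ A j, 0 ≤ z ∧ z ≤ (N : ℤ)) ∧
    x = arrs A}

/-- `z` is a sum of one element of every array -/
def Sums {k : ℕ} (x : Fin k × ℤ → Prop) (z : ℤ) : Prop :=
  ∃ y : Fin k → ℤ, (∀ j, x (j, y j)) ∧ ∑ j, y j = z

/-- the bits which are ignored: none for the `s` cells; the free place `(j, c)` does not depend on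
the array `j` -/
def kign (k s r : ℕ) : KPlace k s r → Set (Fin k × ℤ)
  | .inl _ => ∅
  | .inr c => {x | x.1 = c.1}

theorem ksum_unknown {D : Type} [PartialOrder D] (hD : TreeLike D) {k n N s r : ℕ} (hk : 2 ≤ k)
    {δ t : ℝ} (hδ : 0 < δ) (hδ2 : δ ≤ 1 / 2) (ht : 1 ≤ t)
    (hnt : 40 * k ^ 2 * t * Real.logb 2 ((n + r) / δ) ≤ δ * n) (hN : n ^ k ≤ N)
    {Ω : Type} [Fintype Ω] (p : Ω → ℝ) (S : Ω → UDS D (KPlace k s r) ℤ (Fin k × ℤ) (kign k s r))
    (hS : USolves (Arrays k n N) Sums p S δ t) :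
    δ * (δ * n / (40 * k ^ 2 * t * Real.logb 2 ((n + r) / δ))) ^ k ≤ s := by
  have hex := fun ϖ => (S ϖ).exists_real hD
  choose cont reads accept c1 c2 c3 c4 c5 c6 using hex
  have hmon : ∀ {A A' : Fin k → Finset ℤ}, A ≤ A' → ∀ e, arrs A e → arrs A' e :=
    fun h e he => h e.1 he
  let D' : Ω → KSumDS k s r := fun ϖ =>
    { cell := fun c A => cont ϖ (Sum.inl c) (arrs A)
      cell_mono := fun c A A' h => c1 ϖ _ _ _ (hmon h)
      free := fun j c A => cont ϖ (Sum.inr (j, c)) (arrs A)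
      free_mono := fun j c A A' h => c1 ϖ _ _ _ (hmon h)
      free_ignores := fun j c A A' h => c2 ϖ _ _ _ (by
        intro e he
        unfold arrs
        rw [h e.1 he])
      reads := reads ϖ
      accept := accept ϖ
      accept_mono := c3 ϖ
      accept_reads := c4 ϖ }
  have hmem : ∀ ϖ A, (D' ϖ).mem A = fun c => cont ϖ c (arrs A) := by
    intro ϖ A
    funext c
    rcases c with c | c <;> rfl
  refine ksum_lower hk hδ hδ2 ht hnt hN p D' ⟨hS.1, hS.2.1, fun A h1 h2 z => ?_⟩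
  refine hS.real (x := arrs A) ⟨A, h1, h2, rfl⟩ z (B := IsKSum A z) Iff.rfl
    (o := fun ϖ => (D' ϖ).out A z) (c := fun ϖ => (D' ϖ).cost A z) (fun ϖ => ?_) (fun ϖ => ?_)
  · show accept ϖ z ((D' ϖ).mem A) ↔ _
    rw [hmem]
    exact c5 ϖ (arrs A) z
  · show (reads ϖ z ((D' ϖ).mem A)).card = _
    rw [hmem]
    exact c6 ϖ (arrs A) z

theorem ksum_table (k n N : ℕ) :
    ∃ T : UDS (Flat Bool) (KPlace k (k * N + 1) 0) ℤ (Fin k × ℤ) (kign k (k * N + 1) 0),
      USolves (Arrays k n N) Sums (fun _ : Unit => 1) (fun _ => T) (1 / 2) 1 ∧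
      ∀ z, (∃ x ∈ Arrays k n N, Sums x z) → ∃ c, ∀ P : Know (Fin k × ℤ),
        T.reads z (T.mem P) = {c} ∧
        (T.cont c P = known true ↔ ∀ x, Le P (full x) → Sums x z) ∧
        (T.cont c P = known false ↔ ∀ x, Le P (full x) → ¬ Sums x z) := by
  have hlt : ∀ z : ℤ, 0 ≤ z → z ≤ k * N → z.toNat < k * N + 1 := by
    intro z h1 h2
    zify
    rw [Int.toNat_of_nonneg h1]
    linarith
  refine exists_table (ign := kign k (k * N + 1) 0) (fun c => ?_) ?_
    (fun z => if h : 0 ≤ z ∧ z ≤ k * N then some (Sum.inl ⟨z.toNat, hlt z h.1 h.2⟩) else none)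
    (fun c : KPlace k (k * N + 1) 0 => Sum.elim (fun c : Fin (k * N + 1) => ((c : ℕ) : ℤ))
      (fun c : Fin k × Fin 0 => c.2.elim0) c) ?_ ?_
  · rcases c with c | c
    · rfl
    · exact c.2.elim0
  · rintro x y z h ⟨a, h1, h2⟩
    exact ⟨a, fun j => h _ (h1 j), h2⟩
  · intro z c hc
    by_cases h : 0 ≤ z ∧ z ≤ k * N
    · rw [dif_pos h] at hc
      rw [← Option.some.inj hc]
      show ((z.toNat : ℕ) : ℤ) = z
      exact Int.toNat_of_nonneg h.1
    · rw [dif_neg h] at hc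
      exact absurd hc (by simp)
  · rintro z hz x ⟨A, -, hA, rfl⟩ ⟨y, h1, h2⟩
    by_cases h : 0 ≤ z ∧ z ≤ k * N
    · rw [dif_pos h] at hz
      exact absurd hz (by simp)
    · refine h ⟨?_, ?_⟩
      · rw [← h2]
        exact sum_nonneg fun j _ => (hA j _ (h1 j)).1
      · rw [← h2]
        refine (sum_le_sum fun j _ => (hA j _ (h1 j)).2).trans ?_
        simp

end Pool.Agent.H660.UK
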