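import Pool.Agent.H660.UK.Gen
import Pool.Graph.R_seed8.H525R4.Mono.OneSet

set_option autoImplicit false

/-! # 3SUM-Indexing for one set with partial knowledge (helper660) -/

open scoped Classical
open Finset

namespace Pool.Agent.H660.UK

open Pool.Agent.H698.HF
open Pool.Agent.H525R4.Mono (SetDS SetSolves IsSum oneset_lower)
open Flat (unknown known)

/-- the sets of at most `n` integers from `0, …, N`, given by their bits -/
def Sets (n N : ℕ) : Set (ℤ → Prop) :=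
  {x | ∃ S : Finset ℤ, S.card ≤ n ∧ (∀ z ∈ S, 0 ≤ z ∧ z ≤ (N : ℤ)) ∧ x = fun z => z ∈ S}

/-- `z` is a sum of two (not necessarily different) elements of the set -/
def TwoSum (x : ℤ → Prop) (z : ℤ) : Prop := ∃ a, x a ∧ ∃ b, x b ∧ a + b = z

theorem oneset_unknown {D : Type} [PartialOrder D] (hD : TreeLike D) {n N s : ℕ} {δ t : ℝ}
    (hδ : 0 < δ) (hδ2 : δ ≤ 1 / 2) (ht : 1 ≤ t)
    (hnt : 1200 * t * Real.logb 2 (n / δ) ≤ δ * n) (hN : n ^ 2 ≤ N)
    {Ω : Type} [Fintype Ω] (p : Ω → ℝ) (S : Ω → UDS D (Fin s) ℤ ℤ fun _ => ∅)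
    (hS : USolves (Sets n N) TwoSum p S δ t) :
    δ ^ 2 * (n : ℝ) ^ 2 ≤ 14400 * s * t * Real.logb 2 (n / δ) := by
  have hex := fun ϖ => (S ϖ).exists_real hD
  choose cont reads accept c1 c2 c3 c4 c5 c6 using hex
  let D' : Ω → SetDS s := fun ϖ =>
    { cell := fun c A => cont ϖ c (fun z => z ∈ A)
      cell_mono := fun c A A' h => c1 ϖ _ _ _ fun e he => h he
      reads := reads ϖ
      accept := accept ϖ
      accept_mono := c3 ϖ
      accept_reads := c4 ϖ }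
  refine oneset_lower hδ hδ2 ht hnt hN p D' ⟨hS.1, hS.2.1, fun A h1 h2 z => ?_⟩
  refine hS.real (x := fun z => z ∈ A) ⟨A, h1, h2, rfl⟩ z (B := IsSum A A z) ?_
    (o := fun ϖ => (D' ϖ).out A z) (c := fun ϖ => (D' ϖ).cost A z)
    (fun ϖ => c5 ϖ (fun z => z ∈ A) z) (fun ϖ => c6 ϖ (fun z => z ∈ A) z)
  constructor
  · rintro ⟨x, hx, y, hy, h⟩
    exact ⟨x, hx, y, hy, h⟩
  · rintro ⟨x, hx, y, hy, h⟩
    exact ⟨x, hx, y, hy, h⟩

theorem oneset_table (n N : ℕ) :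
    ∃ T : UDS (Flat Bool) (Fin (2 * N + 1)) ℤ ℤ fun _ => ∅,
      USolves (Sets n N) TwoSum (fun _ : Unit => 1) (fun _ => T) (1 / 2) 1 ∧
      ∀ z, (∃ x ∈ Sets n N, TwoSum x z) → ∃ c, ∀ P : Know ℤ,
        T.reads z (T.mem P) = {c} ∧
        (T.cont c P = known true ↔ ∀ x, Le P (full x) → TwoSum x z) ∧
        (T.cont c P = known false ↔ ∀ x, Le P (full x) → ¬ TwoSum x z) := by
  refine exists_table (fun c => rfl) ?_
    (fun z => if h : 0 ≤ z ∧ z ≤ 2 * N then some ⟨z.toNat, by omega⟩ else none)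
    (fun c => ((c : ℕ) : ℤ)) ?_ ?_
  · rintro x y z h ⟨a, ha, b, hb, hab⟩
    exact ⟨a, h _ ha, b, h _ hb, hab⟩
  · intro z c hc
    by_cases h : 0 ≤ z ∧ z ≤ 2 * N
    · rw [dif_pos h] at hc
      rw [← Option.some.inj hc]
      show ((z.toNat : ℕ) : ℤ) = z
      exact Int.toNat_of_nonneg h.1
    · rw [dif_neg h] at hc
      exact absurd hc (by simp)
  · rintro z hz x ⟨A, -, hA, rfl⟩ ⟨a, ha, b, hb, hab⟩
    by_cases h : 0 ≤ z ∧ z ≤ 2 * N
    · rw [dif_pos h] at hz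
      exact absurd hz (by simp)
    · have h1 := hA a ha
      have h2 := hA b hb
      omega

end Pool.Agent.H660.UK
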